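import Pool.Agent.Y52.RS.Stm

/-! Job ELL of project RS (helper52): elements of the factors are not generalised torsion. -/

set_option autoImplicit false

namespace Pool.Agent.Y43.RS.ELL

open Pool.Agent.Y52.RS

/-- change of labels -/
def lmap {Ω A B : Type} [Group A] [Group B] (f : A →* B) : LW Ω A →* LW Ω B where
  toFun u := ⟨u.p, fun w => f (u.f w)⟩
  map_one' := by
    apply LW.ext
    · rfl
    · funext w
      change f 1 = 1
      exact map_one f
  map_mul' u v := by
    apply LW.ext
    · rfl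
    · funext w
      change f (u.f (v.p w) * v.f w) = f (u.f (v.p w)) * f (v.f w)
      exact map_mul f _ _

theorem lmap_crd {Ω A B : Type} [Group A] [Group B] (f : A →* B) (w0 : Ω) (a : A) :
    lmap f (crd w0 a) = crd w0 (f a) := by
  classical
  apply LW.ext
  · rfl
  · funext w
    change f (if w = w0 then a else 1) = if w = w0 then f a else 1
    split_ifs
    · rfl
    · exact map_one f

/-- the embedding into the fibre of `w0` -/
noncomputable def chom {Ω A : Type} [Group A] (w0 : Ω) : A →* LW Ω A where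
  toFun := crd w0
  map_one' := by
    classical
    apply LW.ext
    · rfl
    · funext w
      change (if w = w0 then (1 : A) else 1) = 1
      split_ifs <;> rfl
  map_mul' a b := by
    classical
    apply LW.ext
    · change (1 : Equiv.Perm Ω) = 1 * 1
      rw [mul_one]
    · funext w
      change (if w = w0 then a * b else 1) =
        (if (1 : Equiv.Perm Ω) w = w0 then a else 1) * (if w = w0 then b else 1)
      rw [Equiv.Perm.one_apply]
      split_ifs
      · rfl
      · rw [mul_one]

theorem chom_apply {Ω A : Type} [Group A] (w0 : Ω) (a : A) :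
    chom w0 a = (crd w0 a : LW Ω A) := rfl

theorem exPhi {C : Type} [Group C] {G : Bool → Type} [∀ b, Group (G b)] (φ : ∀ b, C →* G b)
    (hg : ∀ b, Good C (G b) (φ b)) (b : Bool) :
    ∃ (Ω : Type) (w0 : Ω) (Φ : Monoid.PushoutI φ →* LW Ω (G b)),
      ∀ y, Φ (Monoid.PushoutI.of b y) = crd w0 y := by
  cases b with
  | false =>
    obtain ⟨Ω, w0, θ, hθ⟩ := (hg true).lab
    let f : ∀ i : Bool, G i →* LW Ω (G false) := fun i =>
      match i with
      | false => chom w0
      | true => (lmap (φ false)).comp θ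
    have hf : ∀ i, (f i).comp (φ i) = (chom w0).comp (φ false) := by
      intro i
      cases i with
      | false => rfl
      | true =>
        ext1 c
        change lmap (φ false) (θ (φ true c)) = crd w0 (φ false c)
        rw [hθ, lmap_crd]
    refine ⟨Ω, w0, Monoid.PushoutI.lift f _ hf, fun y => ?_⟩
    rw [Monoid.PushoutI.lift_of]
    rfl
  | true =>
    obtain ⟨Ω, w0, θ, hθ⟩ := (hg false).lab
    let f : ∀ i : Bool, G i →* LW Ω (G true) := fun i =>
      match i with
      | true => chom w0
      | false => (lmap (φ true)).comp θ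
    have hf : ∀ i, (f i).comp (φ i) = (chom w0).comp (φ true) := by
      intro i
      cases i with
      | true => rfl
      | false =>
        ext1 c
        change lmap (φ true) (θ (φ false c)) = crd w0 (φ true c)
        rw [hθ, lmap_crd]
    refine ⟨Ω, w0, Monoid.PushoutI.lift f _ hf, fun y => ?_⟩
    rw [Monoid.PushoutI.lift_of]
    rfl

section

variable {A : Type} [Group A] (x : A)

/-- nonempty products of conjugates -/
def P1 (y : A) : Prop := ∃ l : List A, l ≠ [] ∧ y = (l.map (fun h => h * x * h⁻¹)).prod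

/-- products of conjugates -/
def P0 (y : A) : Prop := y = 1 ∨ P1 x y

theorem P1_mul {y z : A} (hy : P1 x y) (hz : P1 x z) : P1 x (y * z) := by
  obtain ⟨l, hl, rfl⟩ := hy
  obtain ⟨l', _, rfl⟩ := hz
  exact ⟨l ++ l', by simp [hl], by rw [List.map_append, List.prod_append]⟩

theorem P1_mul_P0 {y z : A} (hy : P1 x y) (hz : P0 x z) : P1 x (y * z) := by
  rcases hz with rfl | hz
  · rwa [mul_one]
  · exact P1_mul x hy hz

theorem P0_mul {y z : A} (hy : P0 x y) (hz : P0 x z) : P0 x (y * z) := by
  rcases hy with rfl | hy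
  · rwa [one_mul]
  · exact Or.inr (P1_mul_P0 x hy hz)

theorem conj_prod (g : A) (l : List A) : g * (l.map (fun h => h * x * h⁻¹)).prod * g⁻¹ =
    ((l.map (fun h => g * h)).map (fun h => h * x * h⁻¹)).prod := by
  induction l with
  | nil => simp
  | cons h l ih =>
    rw [List.map_cons, List.prod_cons, List.map_cons, List.map_cons, List.prod_cons, ← ih]
    group

theorem P1_conj (g : A) {y : A} (hy : P1 x y) : P1 x (g * y * g⁻¹) := by
  obtain ⟨l, hl, rfl⟩ := hy
  exact ⟨l.map (fun h => g * h), by simpa using hl, conj_prod x g l⟩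

theorem P0_conj (g : A) {y : A} (hy : P0 x y) : P0 x (g * y * g⁻¹) := by
  rcases hy with rfl | hy
  · left; group
  · exact Or.inr (P1_conj x g hy)

/-- positive elements with trivial permutation part -/
def T1 {Ω : Type} (u : LW Ω A) : Prop :=
  u.p = 1 ∧ (∀ w, P0 x (u.f w)) ∧ ∃ w, P1 x (u.f w)

theorem T1_mul {Ω : Type} {u v : LW Ω A} (hu : T1 x u) (hv : T1 x v) : T1 x (u * v) := by
  obtain ⟨h1, h2, w, h3⟩ := hu
  obtain ⟨k1, k2, _⟩ := hv
  have hf : ∀ w, (u * v).f w = u.f w * v.f w := by
    intro w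
    rw [LW.mul_f, k1]
    rfl
  refine ⟨?_, fun w => ?_, w, ?_⟩
  · rw [LW.mul_p, h1, k1, mul_one]
  · rw [hf]; exact P0_mul x (h2 w) (k2 w)
  · rw [hf]; exact P1_mul_P0 x h3 (k2 w)

theorem T1_conj {Ω : Type} (v : LW Ω A) {u : LW Ω A} (hu : T1 x u) : T1 x (v * u * v⁻¹) := by
  obtain ⟨h1, h2, w, h3⟩ := hu
  have hf : ∀ w, (v * u * v⁻¹).f w = v.f (v.p⁻¹ w) * u.f (v.p⁻¹ w) * (v.f (v.p⁻¹ w))⁻¹ := by
    intro w
    rw [LW.mul_f, LW.mul_f, LW.inv_p, LW.inv_f, h1]
    rfl
  refine ⟨?_, fun w => ?_, v.p w, ?_⟩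
  · rw [LW.mul_p, LW.mul_p, LW.inv_p, h1, mul_one, mul_inv_cancel]
  · rw [hf]; exact P0_conj x _ (h2 _)
  · rw [hf]
    apply P1_conj
    have h4 : v.p⁻¹ (v.p w) = w := v.p.symm_apply_apply w
    rw [h4]
    exact h3

theorem T1_crd {Ω : Type} (w0 : Ω) : T1 x (crd w0 x : LW Ω A) := by
  classical
  have hx : P1 x x := ⟨[1], by simp, by simp⟩
  refine ⟨rfl, fun w => ?_, w0, ?_⟩
  · change P0 x (if w = w0 then x else 1)
    split_ifs
    · exact Or.inr hx
    · exact Or.inl rfl
  · change P1 x (if w0 = w0 then x else 1)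
    rw [if_pos rfl]
    exact hx

theorem T1_one {Ω : Type} (hA : RSt A) (hx : x ≠ 1) : ¬ T1 x (1 : LW Ω A) := by
  rintro ⟨_, _, w, l, hl, h⟩
  exact hA x hx l hl h.symm

end

theorem main : Pool.Agent.Y52.RS.S_ELL := by
  intro C _ G _ φ hg b x hx l hl h
  obtain ⟨Ω, w0, Φ, hΦ⟩ := exPhi φ hg b
  have key : ∀ l : List (Monoid.PushoutI φ), l ≠ [] →
      T1 x (Φ ((l.map (fun h => h * Monoid.PushoutI.of b x * h⁻¹)).prod)) := by
    intro l
    induction l with
    | nil => intro h; exact absurd rfl h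
    | cons g t ih =>
      intro _
      have h1 : T1 x (Φ (g * Monoid.PushoutI.of b x * g⁻¹)) := by
        rw [map_mul, map_mul, map_inv, hΦ]
        exact T1_conj x _ (T1_crd x w0)
      rw [List.map_cons, List.prod_cons, map_mul]
      by_cases ht : t = []
      · subst ht
        rw [List.map_nil, List.prod_nil, map_one, mul_one]
        exact h1
      · exact T1_mul x h1 (ih ht)
  have h2 := key l hl
  rw [h, map_one] at h2
  exact T1_one x (hg b).rst hx h2

end Pool.Agent.Y43.RS.ELL
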