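import Pool.Agent.Y52.RS.Stm

/-! Job FR of project RS (helper52): the words `a^k b a^k` are free. -/

set_option autoImplicit false

namespace Pool.Agent.Y43.RS.FR

open Pool.Agent.Y52.RS

/-- sign of a Boolean -/
def sg (e : Bool) : ℤ := if e then 1 else -1

variable {I : Type} (k : I → ℕ) (ea eb : I → Bool)

/-- the position of the label of `j` -/
def nn (j : I) : ℤ := sg (eb j) * sg (ea j) * (k j : ℤ)

theorem nn_inj (hk : Function.Injective k) : Function.Injective (nn k ea eb) := by
  intro i j h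
  apply hk
  have h1 : ∀ j, (nn k ea eb j).natAbs = k j := by
    intro j
    unfold nn sg
    split_ifs <;> simp
  rw [← h1 i, ← h1 j, h]

open Classical in
/-- the labels of `b` -/
noncomputable def lam (n : ℤ) : FreeGroup I :=
  if h : ∃ j, nn k ea eb j = n then
    (if eb h.choose then FreeGroup.of h.choose else (FreeGroup.of h.choose)⁻¹)
  else 1

theorem lam_nn (hk : Function.Injective k) (j : I) :
    lam k ea eb (nn k ea eb j) = if eb j then FreeGroup.of j else (FreeGroup.of j)⁻¹ := by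
  have h : ∃ i, nn k ea eb i = nn k ea eb j := ⟨j, rfl⟩
  have h1 : h.choose = j := nn_inj k ea eb hk h.choose_spec
  unfold lam
  rw [dif_pos h, h1]

/-- the action of `a` -/
def ua (I : Type) : LW ℤ (FreeGroup I) := ⟨Equiv.addRight 1, fun _ => 1⟩

/-- the action of `b` -/
noncomputable def ub : LW ℤ (FreeGroup I) := ⟨Equiv.neg ℤ, lam k ea eb⟩

theorem ua_pow (n : ℕ) (w : ℤ) : ((ua I) ^ n).p w = w + n ∧ ((ua I) ^ n).f w = 1 := by
  induction n generalizing w with
  | zero => simp [LW.one_p, LW.one_f]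
  | succ n ih =>
    rw [pow_succ, LW.mul_p, LW.mul_f, Equiv.Perm.mul_apply]
    have h1 : (ua I).p w = w + 1 := rfl
    have h2 : (ua I).f w = 1 := rfl
    rw [h1, h2, (ih (w + 1)).1, (ih (w + 1)).2]
    constructor
    · push_cast; ring
    · rw [one_mul]

theorem ua_inv_pow (n : ℕ) (w : ℤ) : ((ua I)⁻¹ ^ n).p w = w - n ∧ ((ua I)⁻¹ ^ n).f w = 1 := by
  induction n generalizing w with
  | zero => simp [LW.one_p, LW.one_f]
  | succ n ih =>
    rw [pow_succ, LW.mul_p, LW.mul_f, Equiv.Perm.mul_apply]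
    have h1 : ((ua I)⁻¹).p w = w - 1 := by
      rw [LW.inv_p]
      change (Equiv.addRight (1 : ℤ)).symm w = w - 1
      simp [sub_eq_add_neg]
    have h2 : ((ua I)⁻¹).f w = 1 := by
      rw [LW.inv_f]
      change (1 : FreeGroup I)⁻¹ = 1
      rw [inv_one]
    rw [h1, h2, (ih (w - 1)).1, (ih (w - 1)).2]
    constructor
    · push_cast; ring
    · rw [one_mul]

theorem pw_ua (e : Bool) (n : ℕ) (w : ℤ) :
    (pw (ua I) e n).p w = w + sg e * n ∧ (pw (ua I) e n).f w = 1 := by
  unfold pw sg
  cases e with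
  | false =>
    rw [if_neg (by simp), if_neg (by simp)]
    have := ua_inv_pow (I := I) n w
    rw [this.1, this.2]
    exact ⟨by ring, rfl⟩
  | true =>
    rw [if_pos rfl, if_pos rfl]
    have := ua_pow (I := I) n w
    rw [this.1, this.2]
    exact ⟨by ring, rfl⟩

theorem pw_ub (e : Bool) (w : ℤ) :
    (pw (ub k ea eb) e 1).p w = -w ∧
      (pw (ub k ea eb) e 1).f w = if e then lam k ea eb w else (lam k ea eb (-w))⁻¹ := by
  unfold pw
  cases e with
  | false =>
    rw [if_neg (by simp), if_neg (by simp), pow_one, LW.inv_p, LW.inv_f]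
    exact ⟨rfl, rfl⟩
  | true =>
    rw [if_pos rfl, if_pos rfl, pow_one]
    exact ⟨rfl, rfl⟩

theorem zz_ok (hk : Function.Injective k) (j : I) :
    (zz (ua I) (ub k ea eb) (ea j) (eb j) (k j)).p 0 = 0 ∧
      (zz (ua I) (ub k ea eb) (ea j) (eb j) (k j)).f 0 = FreeGroup.of j := by
  unfold zz
  rw [LW.mul_p, LW.mul_f, LW.mul_p, LW.mul_f, Equiv.Perm.mul_apply, Equiv.Perm.mul_apply]
  rw [(pw_ua (ea j) (k j) 0).1, (pw_ua (ea j) (k j) 0).2, zero_add]
  rw [(pw_ub k ea eb (eb j) _).1, (pw_ub k ea eb (eb j) _).2]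
  rw [(pw_ua (ea j) (k j) _).1, (pw_ua (ea j) (k j) _).2]
  refine ⟨by ring, ?_⟩
  rw [one_mul, mul_one]
  have hl := lam_nn k ea eb hk j
  unfold nn at hl
  cases h : eb j with
  | false =>
    rw [h] at hl
    simp only [sg, Bool.false_eq_true, if_false] at hl ⊢
    rw [show -((if ea j = true then (1 : ℤ) else -1) * (k j : ℤ)) =
      -1 * (if ea j = true then (1 : ℤ) else -1) * (k j : ℤ) by ring, hl, inv_inv]
  | true =>
    rw [h] at hl
    simp only [sg, if_true] at hl ⊢
    rw [one_mul] at hl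
    exact hl

/-- the labelled action of the free group -/
noncomputable def th : FreeGroup Bool →* LW ℤ (FreeGroup I) :=
  FreeGroup.lift (fun b => if b then ub k ea eb else ua I)

theorem th_zz (j : I) :
    th k ea eb (zz (FreeGroup.of false) (FreeGroup.of true) (ea j) (eb j) (k j)) =
      zz (ua I) (ub k ea eb) (ea j) (eb j) (k j) := by
  have ha : th k ea eb (FreeGroup.of false) = ua I := by simp [th]
  have hb : th k ea eb (FreeGroup.of true) = ub k ea eb := by simp [th]
  have hpw : ∀ (x : FreeGroup Bool) (e : Bool) (n : ℕ),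
      th k ea eb (pw x e n) = pw (th k ea eb x) e n := by
    intro x e n
    unfold pw
    split_ifs <;> simp
  unfold zz
  rw [map_mul, map_mul, hpw, hpw, ha, hb]

theorem main : Pool.Agent.Y52.RS.S_FR := by
  intro I k ea eb hk _
  have key : ∀ y : FreeGroup I,
      (th k ea eb (FreeGroup.lift (fun j =>
        zz (FreeGroup.of false) (FreeGroup.of true) (ea j) (eb j) (k j)) y)).p 0 = 0 ∧
      (th k ea eb (FreeGroup.lift (fun j =>
        zz (FreeGroup.of false) (FreeGroup.of true) (ea j) (eb j) (k j)) y)).f 0 = y := by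
    intro y
    induction y using FreeGroup.induction_on with
    | C1 => rw [map_one, map_one]; exact ⟨rfl, rfl⟩
    | of j =>
      rw [FreeGroup.lift_apply_of, th_zz]
      exact zz_ok k ea eb hk j
    | inv_of j ih =>
      rw [map_inv, map_inv, LW.inv_p, LW.inv_f]
      have h1 : (th k ea eb (FreeGroup.lift (fun j =>
        zz (FreeGroup.of false) (FreeGroup.of true) (ea j) (eb j) (k j))
          (FreeGroup.of j))).p⁻¹ 0 = 0 := by
        rw [Equiv.Perm.inv_eq_iff_eq]; exact ih.1.symm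
      rw [h1]
      exact ⟨rfl, by rw [ih.2]⟩
    | mul x y hx hy =>
      rw [map_mul, map_mul, LW.mul_p, LW.mul_f, Equiv.Perm.mul_apply, hy.1, hx.1, hy.2, hx.2]
      exact ⟨rfl, rfl⟩
  intro y y' h
  rw [← (key y).2, ← (key y').2, h]

end Pool.Agent.Y43.RS.FR
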